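import Mathlib
import Pool.Agent.Q15.CPDefs
import Pool.Agent.Q15.CPUnits

namespace Pool.Agent.Results.MP_6189ff_al.SymmetricGeneration

open Q15CP

/-- The subgroup of the group of units of `U` generated by the images `ψ_{Φ,τ}(S_d)` for
`2 ≤ d` and `d`-CP structures `(Φ; τ)` in `𝕊(U)`. -/
def H {U : Type*} [Monoid U] (c : CPStr U 2) : Subgroup Uˣ :=
  Subgroup.closure {u | ∃ (d : ℕ) (S : CPStr U d), 2 ≤ d ∧ InS c d S ∧
    ∃ σ : Equiv.Perm (Fin d), (u : U) = psi S σ}

/-- For every universal CP monoid `U`, the group of units of `U` is generated by the images of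
the symmetric groups (and these images consist of units); and a universal CP monoid exists. -/
theorem result.{u} :
    (∃ (U : Type u) (_ : Monoid U) (c : CPStr U 2), IsUniversal.{u, u} c) ∧
    (∀ (U : Type u) [Monoid U] (c : CPStr U 2), IsUniversal.{u, u} c →
      (∀ (d : ℕ) (S : CPStr U d) (σ : Equiv.Perm (Fin d)), IsUnit (psi S σ)) ∧
      H c = ⊤) := by
  refine ⟨?_, ?_⟩
  · refine ⟨ULift.{u} Q15CP.U, inferInstance, cU.map MulEquiv.ulift.symm, ?_⟩
    intro N _ c'
    obtain ⟨g, hg, huniq⟩ := universal_cU N c'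
    let e : ULift.{u} Q15CP.U ≃* Q15CP.U := MulEquiv.ulift
    refine ⟨g.comp e.toMonoidHom, ⟨?_, ?_⟩, ?_⟩
    · intro i
      exact hg.1 i
    · intro m
      exact hg.2 fun i => e (m i)
    · rintro f ⟨hf1, hf2⟩
      have h1 : f.comp e.symm.toMonoidHom = g := huniq _ ⟨fun i => hf1 i, fun m => by
        have := hf2 fun i => e.symm (m i)
        exact this⟩
      rw [← h1]
      ext x
      rfl
  · intro V _ c hc
    refine ⟨fun d S σ => isUnit_psi S σ, ?_⟩
    obtain ⟨e, he⟩ := exists_iso c hc
    have := HS_map e cU HS_top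
    rw [he] at this
    exact this

end Pool.Agent.Results.MP_6189ff_al.SymmetricGeneration
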